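import Pool.Agent.N983.RT.Asm2
import Pool.Agent.N983.RT.HOE2
import Pool.Agent.N983.RT.UNI2
import Pool.Agent.N983.RT.DIG
import Pool.Agent.N983.RT.BCS2
import Pool.Agent.N983.WK.Asm3
import Pool.Agent.N983.WK.TRB
import Pool.Agent.N983.WK.CVB
import Pool.Agent.N983.WK.PRB
import Pool.Agent.N983.WK.ANT
import Pool.Agent.N983.WK.SQ
import Pool.Agent.N983.WK.MSB
import Pool.Agent.N983.WK.FX1
import Pool.Agent.N983.WK.FX2
import Pool.Agent.N983.WK.EEF

/-!
The energy equality for the Navier-Stokes equations on the torus `(ℝ / 2πℤ) ^ 3` with random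
coefficients of the triad interactions.

In Fourier variables the (hyperdissipative) Navier-Stokes equations with a force `f` are
`∂ₜ uₘ = - ν |m|^(2α) uₘ - i Pₘ ∑_{k + l = m} (u_k · l) u_l + f_m`. We put a random coefficient in
front of the interaction of the triad `k, l, -m`; it is the same for the permutations of the triad
and for the opposite triad, and the coefficients of different triads are independent and at most one
in absolute value. If the mean of the coefficient of the triad `k, l, m` is at most a constant times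
`(longest)^(2β) / (shortest)^(5/2)`, then almost surely, for all `ν > 0` and all
`α > max (1/2) β`, all square integrable forces and all weak solutions (bounded energy, finite
dissipation) satisfy the energy equality.

For instance, for `α = 1` the coefficients may be those of the Navier-Stokes equations themselves
for all triads whose shortest wave vector has at most the length `N^θ`, `N` the length of the
longest one, `θ < 4/5`, and independent random signs for the other triads.
-/

set_option autoImplicit false

namespace Pool.Agent.Results.MP_a38b17_an.AlmostSureEnergyEquality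

open MeasureTheory ProbabilityTheory Pool.Agent.N983.RT Pool.Agent.N983.WK

theorem result (Ω : Type) [MeasurableSpace Ω] (μ : Measure Ω) [IsProbabilityMeasure μ]
    (X : Sym2 (Finset Wv) → Ω → ℝ) (hX : ∀ c, Measurable (X c)) (hi : iIndepFun X μ)
    (hX1 : ∀ c, ∀ᵐ ω ∂μ, |X c ω| ≤ 1) (B β : ℝ)
    (hm : ∀ k l m : Wv, k ≠ 0 → l ≠ 0 → m ≠ 0 → k + l + m = 0 →
      |∫ ω, sgn X ω k l m ∂μ| * min (nsq k) (min (nsq l) (nsq m)) ^ (5 / 4 : ℝ) ≤
        B * max (nsq k) (max (nsq l) (nsq m)) ^ β) :
    ∀ᵐ ω ∂μ, ∀ ν α T : ℝ, 0 < ν → 1 / 2 < α → β < α → 0 ≤ T → ∀ f u : ℝ → Fld, IsForce T f →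
      IsWeakF (sgn X ω) ν α T f u → EnergyEqF ν α T f u := by
  have h := asm3_rand t_UNI2 t_HOE2 t_DIG t_BCS2 t_CVB t_PRB t_TRB t_ANT t_SQ t_MSB t_FX1 t_FX2
    t_EEF Ω μ X hX hi hX1 B β hm
  filter_upwards [h] with ω hω
  intro ν α T hν h1 h2 hT
  exact hω ν α T hν (max_lt h1 h2) hT

end Pool.Agent.Results.MP_a38b17_an.AlmostSureEnergyEquality
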