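import Pool.Agent.N976.UE.Final
import Pool.Agent.H772R2.NS.PubBridge
import Pool.Agent.H772R2.NSR.PubR

/-!
# Leray-Hopf solutions of the exact Navier-Stokes equations under very sparse workless constraints
lose almost all their energy at one time, in every open set

We consider the Navier-Stokes equations with zero boundary values in an open set `Ω ⊆ ℝ³`, with the
exact nonlinearity, pressure and viscosity and without force, under linear constraints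
`∫ u(t) · r_p = 0` imposed through their reaction forces (d'Alembert's principle): the equations
are tested with all `v ∈ H¹_{0,σ}(Ω)` which satisfy the constraints. The reaction forces do no
work: for classical solutions the energy equality holds. (With finitely many constraints the
reaction force would be bounded and smooth in `x`: just the Navier-Stokes equations with a harmless
force.) The constraint fields `r_p` are `C^∞`, four for every `n`, supported in the ball of radius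
`R^(-(6/5)^n)` around one point: at most `4 (1 + log log (1/δ) / log (6/5))` of them are not
supported in the ball of radius `δ ≤ 1/R`, and `R` is as large as we want.

For every `Ω`, every viscosity, every ball in `Ω` and every `ε > 0` there is a divergence-free
datum in `C_c^∞(Ω)` and a Leray-Hopf solution on `[0, T]` with these initial values, `C^∞` in
`(t, x)` up to the time `T` exclusive, which satisfies the energy equality for `t < T`; the total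
dissipation is at most `ε` times the initial energy, but the energy which is left at the time `T`
is also at most `ε` times the initial energy: the energy concentrates at one point and is lost, the
energy inequality is strict at `t = T`. If `Ω` is bounded then this is the only Leray-Hopf solution.
-/

open Set MeasureTheory
open scoped ContDiff InnerProductSpace

namespace Pool.Agent.Results.MP_a38b17_an.ConstrainedEnergyLoss

open H772R2.NS.Pub

/-- The entry `(i, j)` of a matrix. -/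
def entry (A : Mat) (i j : Fin 3) : ℝ := (show EuclideanSpace ℝ (Fin 3 × Fin 3) from A) (i, j)

/-- The product of a matrix and a vector: `mulVec (∇v) a = (a·∇) v`. -/
noncomputable def mulVec (A : Mat) (a : R3) : R3 :=
  WithLp.toLp 2 fun i : Fin 3 => ∑ j : Fin 3, entry A i j * ⟪e j, a⟫_ℝ

/-- `v` satisfies the constraints `∫ v · r i = 0`. -/
def Con {ι : Type} {Ω : Set R3} (r : ι → R3 → R3) (v : L2 Ω R3) : Prop :=
  ∀ i, ∫ x in Ω, ⟪v.fn x, r i x⟫_ℝ = 0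

/-- `∫ u · (u·∇)v - ν ∫ ∇u : ∇v`, with `w = ∇u`, `z = ∇v`. -/
noncomputable def form {Ω : Set R3} (ν : ℝ) (u : L2 Ω R3) (w z : L2 Ω Mat) : ℝ :=
  (∫ x in Ω, ⟪u.fn x, mulVec (z.fn x) (u.fn x)⟫_ℝ) - ν * ⟪w, z⟫_ℝ

/-- Leray-Hopf solutions `u` on `[0, T]` of the Navier-Stokes equations in `Ω` with viscosity `ν`,
zero boundary values and no force, under the constraints `∫ u(t) · r i = 0`; `G = ∇u`:
* `u ∈ L^∞(0,T; L²_σ)` is weakly continuous on `[0, T]` and satisfies the constraints;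
* `u ∈ L²(0,T; H¹_{0,σ})` with `∇u = G`;
* the equations hold in the weak sense, integrated in time, tested with all `v ∈ H¹_{0,σ}(Ω)` which
  satisfy the constraints;
* the energy inequality holds for every `t ∈ [0, T]`. -/
structure LerayHopf {ι : Type} (Ω : Set R3) (ν T : ℝ) (r : ι → R3 → R3) (u : ℝ → L2 Ω R3)
    (G : ℝ → L2 Ω Mat) : Prop where
  bdd : ∃ M, ∀ t ∈ Icc 0 T, ‖u t‖ ≤ M
  sol : ∀ t ∈ Icc 0 T, u t ∈ L2sigma Ω
  con : ∀ t ∈ Icc 0 T, Con r (u t)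
  wcont : ∀ v : L2 Ω R3, ContinuousOn (fun t => ⟪u t, v⟫_ℝ) (Icc 0 T)
  grad : ∀ᵐ t ∂(volume.restrict (Ioc 0 T)), (u t, G t) ∈ H1graph Ω
  gradL2 : MemLp G 2 (volume.restrict (Ioc 0 T))
  eqn : ∀ v z, (v, z) ∈ H1graph Ω → Con r v → ∀ t ∈ Icc 0 T,
    ⟪u t, v⟫_ℝ - ⟪u 0, v⟫_ℝ = ∫ s in (0 : ℝ)..t, form ν (u s) (G s) z
  en : ∀ t ∈ Icc 0 T, ‖u t‖ ^ 2 / 2 + ν * (∫ s in (0 : ℝ)..t, ‖G s‖ ^ 2) ≤ ‖u 0‖ ^ 2 / 2

/-- The constraint fields, translated to `x₀` and dilated to the radius `ℓ`. -/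
noncomputable def place (x₀ : R3) (ℓ : ℝ) (r : Fin 4 × ℕ → R3 → R3) (p : Fin 4 × ℕ) (x : R3) :
    R3 := r p (ℓ⁻¹ • (x - x₀))

/-- `u` loses its energy at the time `T`: up to the time `T` (exclusive) it is the smooth field `U`
and the energy equality holds; at the time `T` at most `ε` times the initial energy is left, and
the total dissipation is at most `ε` times the initial energy. -/
structure Loss {Ω : Set R3} (ε ν T : ℝ) (U : ℝ → R3 → R3) (u : ℝ → L2 Ω R3)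
    (G : ℝ → L2 Ω Mat) : Prop where
  pos : 0 < ‖u 0‖
  smooth : ContDiffOn ℝ ∞ (fun z : ℝ × R3 => U z.1 z.2) (Ico 0 T ×ˢ univ)
  cls : ∀ t ∈ Ico 0 T, IsClass (u t) (U t) ∧ IsClass (G t) (jac (U t))
  eq : ∀ t ∈ Ico 0 T, ‖u t‖ ^ 2 / 2 + ν * (∫ s in (0 : ℝ)..t, ‖G s‖ ^ 2) = ‖u 0‖ ^ 2 / 2
  left : ‖u T‖ ^ 2 / 2 ≤ ε * (‖u 0‖ ^ 2 / 2)
  diss : ν * (∫ s in (0 : ℝ)..T, ‖G s‖ ^ 2) ≤ ε * (‖u 0‖ ^ 2 / 2)

theorem mulVec_eq (A : H772R2.NS.M3) (a : H772R2.NS.E3) :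
    (mulVec A a : H772R2.NS.E3) = Pool.Agent.N976.DI.mv A a := by
  have h : ∀ i : Fin 3, ∀ a : H772R2.NS.E3, ⟪(e i : H772R2.NS.E3), a⟫_ℝ = a i := fun i a => by
    rw [inner_e]
  show WithLp.toLp 2 (fun i : Fin 3 => ∑ j : Fin 3, entry A i j
    * ⟪(e j : H772R2.NS.E3), a⟫_ℝ) = _
  simp only [h]
  rfl

theorem form_eq {Ω : Set H772R2.NS.E3} (ν : ℝ) (u : H772R2.NS.L2V Ω) (w z : H772R2.NS.L2M Ω) :
    form (Ω := Ω) ν u w z =
      (∫ x in Ω, ⟪u x, Pool.Agent.N976.DI.mv (z x) (u x)⟫_ℝ) - ν * ⟪w, z⟫_ℝ := by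
  have e1 : (∫ x in Ω, ⟪L2.fn (Ω := Ω) (E := R3) u x,
      mulVec (L2.fn (Ω := Ω) (E := Mat) z x) (L2.fn (Ω := Ω) (E := R3) u x)⟫_ℝ) =
      ∫ x in Ω, ⟪u x, Pool.Agent.N976.DI.mv (z x) (u x)⟫_ℝ := by
    refine integral_congr_ae (μ := (volume : Measure H772R2.NS.E3).restrict Ω) ?_
    filter_upwards with x
    exact congrArg (fun y : H772R2.NS.E3 => ⟪u x, y⟫_ℝ) (mulVec_eq (z x) (u x))
  unfold form
  exact congrArg₂ (· - ·) e1 rfl

theorem mem_iff {Ω : Set R3} (v : H772R2.NS.L2V (Ω : Set H772R2.NS.E3))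
    (z : H772R2.NS.L2M (Ω : Set H772R2.NS.E3)) :
    (v, z) ∈ H772R2.NS.H1graph (Ω : Set H772R2.NS.E3) ↔
      (v, z) ∈ (H1graph Ω : Set (H772R2.NS.L2V (Ω : Set H772R2.NS.E3) ×
        H772R2.NS.L2M (Ω : Set H772R2.NS.E3))) :=
  ⟨fun h => mem_pub.mp (H772R2.NS.mem_graphW.mpr h),
    fun h => H772R2.NS.mem_graphW.mp (mem_pub.mpr h)⟩

theorem sig_iff {Ω : Set R3} (v : H772R2.NS.L2V (Ω : Set H772R2.NS.E3)) :
    v ∈ H772R2.NS.L2sigma (Ω : Set H772R2.NS.E3) ↔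
      v ∈ (L2sigma Ω : Set (H772R2.NS.L2V (Ω : Set H772R2.NS.E3))) :=
  Iff.of_eq (congrArg (fun S : Set (H772R2.NS.L2V (Ω : Set H772R2.NS.E3)) => v ∈ S)
    L2sigma_eq.symm)

theorem lh_of {ι : Type} {Ω : Set R3} {ν T : ℝ}
    {r : ι → H772R2.NS.E3 → H772R2.NS.E3} {u : ℝ → H772R2.NS.L2V (Ω : Set H772R2.NS.E3)}
    {G : ℝ → H772R2.NS.L2M (Ω : Set H772R2.NS.E3)}
    (h : Pool.Agent.N976.UE.LH0 (Ω : Set H772R2.NS.E3) ν T r u G) :
    LerayHopf Ω ν T (r : ι → R3 → R3) u G := by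
  refine ⟨h.bdd, fun t ht => (sig_iff _).1 (h.sol t ht), h.con, h.wcont, ?_, h.gradL2, ?_, h.en⟩
  · filter_upwards [h.grad] with t h1
    exact (mem_iff _ _).1 h1
  · intro v z hv hc t ht
    refine (h.eqn v z ((mem_iff v z).2 hv) hc t ht).trans ?_
    exact intervalIntegral.integral_congr fun s _ => (form_eq ν (u s) (G s) z).symm

theorem of_lh {ι : Type} {Ω : Set R3} {ν T : ℝ}
    {r : ι → H772R2.NS.E3 → H772R2.NS.E3} {u : ℝ → H772R2.NS.L2V (Ω : Set H772R2.NS.E3)}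
    {G : ℝ → H772R2.NS.L2M (Ω : Set H772R2.NS.E3)}
    (h : LerayHopf Ω ν T (r : ι → R3 → R3) u G) :
    Pool.Agent.N976.UE.LH0 (Ω : Set H772R2.NS.E3) ν T r u G := by
  refine ⟨h.bdd, fun t ht => (sig_iff _).2 (h.sol t ht), h.con, h.wcont, ?_, h.gradL2, ?_, h.en⟩
  · filter_upwards [h.grad] with t h1
    exact (mem_iff _ _).2 h1
  · intro v z hv hc t ht
    refine (h.eqn v z ((mem_iff v z).1 hv) hc t ht).trans ?_
    exact intervalIntegral.integral_congr fun s _ => form_eq ν (u s) (G s) z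

/-- For all `R₀` and `ε > 0` there are `R ≥ R₀`, `T₀ > 0` and `C^∞` fields `P`, `r (i, n)` on `ℝ³`,
`i < 4`, `n ≥ 0`, `div P = 0`, `P = 0` for `|y| ≥ 1`, `r (i, n) = 0` for `|y| ≥ R^(-(6/5)^n)`, such
that for every open set `Ω`, every closed ball in `Ω` (centre `x₀`, radius `ℓ`) and every `ν > 0`,
with `T = ℓ² T₀/ν` and the constraints `∫ u(x) · r (i, n) ((x - x₀)/ℓ) dx = 0`: there is a
Leray-Hopf solution `u` on `[0, T]` in `Ω` with `u(0, x) = (ν/ℓ) P((x - x₀)/ℓ)` which is smooth and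
satisfies the energy equality for `t < T`, while at the time `T` the energy `|u(T)|²/2` and the
total dissipation are both at most `ε |u(0)|²/2`, so that the energy inequality is strict if
`ε < 1/2`. If `Ω` is bounded then every Leray-Hopf solution on `[0, T]` under these constraints
with these initial values is equal to `u`. -/
theorem result (R₀ ε : ℝ) (hε : 0 < ε) :
    ∃ (R T₀ : ℝ) (P : R3 → R3) (r : Fin 4 × ℕ → R3 → R3), R₀ ≤ R ∧ 1 < R ∧ 0 < T₀ ∧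
      ContDiff ℝ ∞ P ∧ (∀ y, 1 ≤ ‖y‖ → P y = 0) ∧ (∀ y, dvg P y = 0) ∧
      (∀ p, ContDiff ℝ ∞ (r p)) ∧
      (∀ i n y, 1 ≤ R ^ ((6 / 5 : ℝ) ^ n) * ‖y‖ → r (i, n) y = 0) ∧
      ∀ (Ω : Set R3) (x₀ : R3) (ℓ ν : ℝ), IsOpen Ω → 0 < ℓ → 0 < ν →
        (∀ x, ‖x - x₀‖ ≤ ℓ → x ∈ Ω) →
        ∃ (U : ℝ → R3 → R3) (u : ℝ → L2 Ω R3) (G : ℝ → L2 Ω Mat),
        (∀ x, U 0 x = (ν / ℓ) • P (ℓ⁻¹ • (x - x₀))) ∧
        LerayHopf Ω ν (ℓ ^ 2 * (T₀ / ν)) (place x₀ ℓ r) u G ∧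
        Loss ε ν (ℓ ^ 2 * (T₀ / ν)) U u G ∧
        (Bornology.IsBounded Ω → ∀ (u' : ℝ → L2 Ω R3) (G' : ℝ → L2 Ω Mat),
          LerayHopf Ω ν (ℓ ^ 2 * (T₀ / ν)) (place x₀ ℓ r) u' G' → u' 0 = u 0 →
          ∀ t ∈ Icc 0 (ℓ ^ 2 * (T₀ / ν)), u' t = u t) := by
  obtain ⟨⟨hX, hY3, hY4, hY5⟩, hZ0, hZ1, hZ2, hZ3, hZ4, hZ5, -⟩ := Pool.Agent.N976.UE.all
  obtain ⟨R, T₀, P, r, hR, hR1, hT0, hP, hPo, hdP, hr, hro, h⟩ :=
    Pool.Agent.N976.UE.mainLH0_of hX hY3 hY4 hY5 hZ0 hZ1 hZ2 hZ3 hZ4 hZ5 ε R₀ hε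
  refine ⟨R, T₀, P, r, hR, hR1, hT0, hP, hPo, ?_, hr, hro, fun Ω x₀ ℓ ν hΩ hℓ hν hb => ?_⟩
  · intro y
    refine Eq.trans ?_ (hdP y)
    unfold dvg
    refine Finset.sum_congr rfl fun i _ => ?_
    exact inner_e i _
  have hb' : Metric.closedBall (show H772R2.NS.E3 from x₀) ℓ ⊆ (show Set H772R2.NS.E3 from Ω) := by
    intro x hx
    rw [Metric.mem_closedBall, dist_eq_norm] at hx
    exact hb x hx
  obtain ⟨U, u, G, hsm, hU0, hL, hpos, hcl, hT, hD, huni⟩ := h Ω x₀ ℓ ν hΩ hℓ hν hb'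
  exact ⟨U, u, G, hU0, lh_of hL, ⟨hpos, hsm,
    fun t ht => ⟨(hcl t ht).1, (isClass_jac _ _).2 (hcl t ht).2.1⟩,
    fun t ht => (hcl t ht).2.2, hT, hD⟩,
    fun hbd u' G' hL' h0 => huni hbd u' G' (of_lh hL') h0⟩

end Pool.Agent.Results.MP_a38b17_an.ConstrainedEnergyLoss
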