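import Pool.Agent.N976.EQ.Asm

/-!
# Where a suitable weak solution of the Navier-Stokes equations can lose energy

Let `(u, p)` be a suitable weak periodic solution of the Navier-Stokes equations with viscosity
`ν > 0`. Its defect is the nonnegative measure `ψ ↦ ∫ DD ν u p ψ` in the local energy balance
(`ψ ≥ 0` a test function); the local energy equality is that it vanishes. Let
`h(r) = r log² (1 / r) / (log log (1 / r))^7`, or any gauge with `r / h(r)` nondecreasing and
`liminf h(r) (log log (1 / r))^6 / (r log² (1 / r)) = 0`. Then: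

* the defect measure is concentrated on the singular points `(t, x)` at which the dissipation
  `∫ |∇u|²` in the parabolic cylinders of radius `r` around `(t, x)` is not `O(h(r))`;
* if there are no such points in the support of a test function `φ`, then the local energy
  equality holds for `φ`;
* if there are no such points at all, then the energy equality holds.

The constant in `O(h(r))` depends on the point in an arbitrary way. For `h(r) = r` (bounded
density, 'type I' points) this follows from the theorem of Caffarelli, Kohn and Nirenberg.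

`V = Fin 3 → ℝ` with the maximum norm. See the claim file for the definitions.
-/

open MeasureTheory Set
open scoped ENNReal

namespace Pool.Agent.Results.MP_a38b17_an.DefectConcentration

open H459R3.NS W221.NS Pool.Agent.Y8

/-- The dissipation in the parabolic cylinder of radius `r` around `(t, x)`. -/
noncomputable def Diss (ν : ℝ) (G : Set ℝ) (u : ℝ → V → V) (t : ℝ) (x : V) (r : ℝ) : ℝ≥0∞ :=
  ∫⁻ q in {q : ℝ × V | q.1 ∈ G ∧ ν * |q.1 - t| < r ^ 2 ∧ ‖q.2 - x‖ < r},
    ENNReal.ofReal (gsq (u q.1) q.2)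

/-- At the point `(t, x)` the dissipation is `O(h)`; the constant depends on the point. -/
def Tame (ν : ℝ) (h : ℝ → ℝ) (G : Set ℝ) (u : ℝ → V → V) (t : ℝ) (x : V) : Prop :=
  ∃ K : ℝ, ∃ r₁ > 0, ∀ r ∈ Ioo 0 r₁, Diss ν G u t x r ≤ ENNReal.ofReal (K * h r)

theorem result (ν T E D : ℝ) (G : Set ℝ) (u : ℝ → V → V) (p : ℝ → V → ℝ) (hν : 0 < ν)
    (hu : Turb ν T E D G u p) (h : ℝ → ℝ) (r₀ : ℝ) (hr₀ : 0 < r₀)
    (hpos : ∀ r ∈ Ioc 0 r₀, 0 < h r) (hmono : MonotoneOn (fun r => r / h r) (Ioc 0 r₀))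
    (hlim : ∀ η > 0, ∀ ρ > 0, ∃ r ∈ Ioo 0 ρ,
      h r * (1 + Real.log (1 + |Real.log r|)) ^ 6 ≤ η * (r * Real.log r ^ 2)) :
    (∀ ε : ℝ, 0 < ε → ∃ U : Set (ℝ × V), IsOpen U ∧
      (∀ t ∈ Ioo 0 T, ∀ x : V, (SingPt G u t x → Tame ν h G u t x) → (t, x) ∈ U) ∧
      ∀ ψ : ℝ → V → ℝ, Test T ψ → (∀ t x, 0 ≤ ψ t x) → (∀ t x, ψ t x ≤ 1) →
        tsupport (fun z : ℝ × V => ψ z.1 z.2) ⊆ U → ∫ t in G, DD ν u p ψ t ≤ ε) ∧
    (∀ φ : ℝ → V → ℝ, Test T φ → (∀ t x, 0 ≤ φ t x) →
      (∀ t x, (t, x) ∈ tsupport (fun z : ℝ × V => φ z.1 z.2) → SingPt G u t x →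
        Tame ν h G u t x) → ∫ t in G, DD ν u p φ t = 0) ∧
    ((∀ t ∈ Ioo 0 T, ∀ x, SingPt G u t x → Tame ν h G u t x) →
      ∀ s ∈ G, ∀ t ∈ G, s ≤ t →
        energy (u t) + 2 * ν * (∫ τ in Ioo s t, enstrophy (u τ)) = energy (u s)) := by
  refine ⟨fun ε hε => Pool.Agent.N976.EQ.all_conc hν hu hr₀ hpos hmono hlim hε,
    fun φ hφ hφ0 hd => Pool.Agent.N976.EQ.all_loc hν hu hr₀ hpos hmono hlim hφ hφ0 hd,
    fun hd s hs t ht hst => ?_⟩
  have h1 := Pool.Agent.N976.EQ.all_glob hν hu hr₀ hpos hmono hlim hd s hs t ht hst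
  linarith

end Pool.Agent.Results.MP_a38b17_an.DefectConcentration
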