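import Pool.Agent.N841.DY.EE
import Pool.Agent.N841.DY.Uni2

/-!
# The dyadic Navier-Stokes equations: energy equality exactly for `β ≤ 3`

The dyadic model of the Navier-Stokes equations with scale ratio `lam`, viscosity `ν > 0` and
transport exponent `β` is the system

`X_n' = lam ^ (β (n-1)) X_(n-1) ^ 2 - lam ^ (β n) X_n X_(n+1) - ν lam ^ (2 n) X_n`, `n = 0, 1, ...`

(without the first term for `n = 0`), with nonnegative initial data of finite energy; the energy
is `∑ X_n ^ 2`.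

* `lam ≥ 2`: all solutions with nonnegative data of finite energy satisfy the energy equality at
  all times if and only if `β ≤ 3`.
* `lam > 1`, `β > 3`: for every `T > 0` and all large `R` the datum `(R, 0, 0, ...)` has exactly
  one solution, and this solution has lost energy at all times `t ≥ T`.

Subtasks proved by helpers 9, 42, 96, 134, 306, 434, 505, 539, 568, 614, 702, 803, 887.
-/

set_option autoImplicit false

open Set

namespace Pool.Agent.Results.MP_a38b17_an.DyadicEnergyEquality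

open Pool.Agent.N841.DY

theorem result :
    (∀ (lam : ℝ), 2 ≤ lam → ∀ (ν : ℝ), 0 < ν → ∀ (β : ℝ),
      (∀ X : ℕ → ℝ → ℝ, IsSol (coup lam β) (damp lam ν) X → (∀ n, 0 ≤ X n 0) →
        Summable (fun n => X n 0 ^ 2) →
        ∀ t, 0 ≤ t → EnergyEquality (damp lam ν) X t) ↔ β ≤ 3) ∧
    ∀ (lam : ℝ), 1 < lam → ∀ (ν : ℝ), 0 < ν → ∀ (β : ℝ), 3 < β → ∀ T, 0 < T →
      ∃ R₀ : ℝ, 0 < R₀ ∧ ∀ R, R₀ ≤ R → ∃ X : ℕ → ℝ → ℝ,
        IsSol (coup lam β) (damp lam ν) X ∧ X 0 0 = R ∧ (∀ n, 0 < n → X n 0 = 0) ∧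
        (∀ Y : ℕ → ℝ → ℝ, IsSol (coup lam β) (damp lam ν) Y → (∀ n, Y n 0 = X n 0) →
          ∀ n t, 0 ≤ t → Y n t = X n t) ∧
        ∀ t, T ≤ t → Summable (account (damp lam ν) X t) ∧
          ∑' n, account (damp lam ν) X t n < ∑' n, X n 0 ^ 2 := by
  have part2 : ∀ (lam : ℝ), 1 < lam → ∀ (ν : ℝ), 0 < ν → ∀ (β : ℝ), 3 < β → ∀ T, 0 < T →
      ∃ R₀ : ℝ, 0 < R₀ ∧ ∀ R, R₀ ≤ R → ∃ X : ℕ → ℝ → ℝ,
        IsSol (coup lam β) (damp lam ν) X ∧ X 0 0 = R ∧ (∀ n, 0 < n → X n 0 = 0) ∧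
        (∀ Y : ℕ → ℝ → ℝ, IsSol (coup lam β) (damp lam ν) Y → (∀ n, Y n 0 = X n 0) →
          ∀ n t, 0 ≤ t → Y n t = X n t) ∧
        ∀ t, T ≤ t → Summable (account (damp lam ν) X t) ∧
          ∑' n, account (damp lam ν) X t n < ∑' n, X n 0 ^ 2 := by
    intro lam hlam ν hν β hβ T hT
    obtain ⟨R₀, hR₀, H⟩ := EE.fails hlam hν hβ hT
    refine ⟨R₀, hR₀, fun R hR => ?_⟩
    have hlam0 : 0 < lam := by linarith
    have hk : ∀ n, 0 ≤ coup lam β n := fun n => by unfold coup; positivity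
    set x : ℕ → ℝ := fun n => if n = 0 then R else 0 with hx
    have hx0 : ∀ n, 0 ≤ x n := by
      intro n
      simp only [hx]
      split_ifs
      · linarith
      · exact le_rfl
    have hxz : ∀ n, 0 < n → x n = 0 := by
      intro n hn
      simp [hx, hn.ne']
    obtain ⟨X, hX, hX0⟩ := EE.exists_sol (β := β) hlam hν hx0 (EE.summable_single hxz)
    have h0 : X 0 0 = R := by rw [hX0]; simp [hx]
    have hz : ∀ n, 0 < n → X n 0 = 0 := fun n hn => by rw [hX0]; exact hxz n hn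
    have hs : Summable (fun n => X n 0 ^ 2) := EE.summable_single (x := fun n => X n 0) hz
    have hpos := Pos.t_POS _ _ X hk hX (fun n => by rw [hX0]; exact hx0 n)
    refine ⟨X, hX, h0, hz, ?_, ?_⟩
    · intro Y hY hY0 n t ht
      have hposY := Pos.t_POS _ _ Y hk hY (fun n => by rw [hY0, hX0]; exact hx0 n)
      exact (Uni2.t_UNIQ2 Flux.t_FLUX lam β ν hlam hν X Y hX hY hpos hposY
        (fun n => (hY0 n).symm) hs n t ht).symm
    · intro t ht
      have h1 := H R hR X hX h0 hz t ht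
      rw [EE.tsum_single (x := fun n => X n 0) hz, h0]
      exact h1
  refine ⟨fun lam hlam ν hν β => ⟨fun h => ?_, fun hβ X hX h0 hs t ht => ?_⟩, part2⟩
  · by_contra hcon
    push Not at hcon
    obtain ⟨R₀, hR₀, H⟩ := part2 lam (by linarith) ν hν β hcon 1 one_pos
    obtain ⟨X, hX, hX0, hz, _, hloss⟩ := H R₀ le_rfl
    have h0 : ∀ n, 0 ≤ X n 0 := by
      intro n
      rcases Nat.eq_zero_or_pos n with rfl | hn
      · rw [hX0]; exact hR₀.le
      · rw [hz n hn]
    have h1 := h X hX h0 (EE.summable_single (x := fun n => X n 0) hz) 1 zero_le_one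
    have h2 := (hloss 1 le_rfl).2
    rw [h1.tsum_eq] at h2
    exact lt_irrefl _ h2
  · exact EE.holds hlam hν hβ hX h0 hs ht

end Pool.Agent.Results.MP_a38b17_an.DyadicEnergyEquality
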